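import Pool.Agent.H98.ARW.Sharp

/-!
# Activated random walk: the number of sleeping particles is monotone in all the data

Activated random walk on a finite set of sites `V` with a sink: an active particle of the site `v`
jumps at rate `1`, to `z` (a site or the sink `none`) with probability `P.p v z`; an active particle
alone at its site `v` falls asleep at rate `lam v`; a sleeping particle wakes up when another
particle arrives. `probGE P lam k η` is the probability that the process started at `η` ends with at
least `k` sleeping particles.

The question: divert one edge of a multigraph to the sink; is the final number of sleeping particles
stochastically smaller? (library, `DivertedEdge`: yes, for jumps uniform on the edges and a constant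
sleep rate). Here: arbitrary jump kernels, sleep rates which depend on the site, and the final
number of sleeping particles is monotone in everything at once: it decreases when the kernel is
lowered, when the sleep rates are lowered, and when active particles are removed from the start.
`Lowered` contains: any part of the mass of any set of edges goes to the sink (second part); a jump
to `y` is passed on at once by an additional jump from `y` (`swept_pass`); in general a jump is
swept, that is, its law becomes smaller in the balayage order.

The restriction to active particles at the start cannot be dropped: `ex_lt` (in
`Pool.Agent.H98.ARW.Sharp`) is an example with one sleeping particle for which, for all sleep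
rates, the inequality is strict in the other direction.

Proof. The tools of the library (value functions of the topplings, Bellman iteration, waking up)
are carried over to kernels and site-dependent rates. Let `L`, `L'` be the value functions for two
kernels which differ at `x` only. `L - L'` is `avg P x W - avg P' x W`, where `W z` is the expected
sum, over the topplings of `x`, of `L'` with a particle put at `z`; `W` is `P'`-superharmonic if all
particles are active. So sweeping is exactly what is needed. For the sleep rates, `L'` is
subharmonic for the larger rates because waking up does not increase it. For the start,
`z ↦ L (addAt η z)` is superharmonic, hence minimal at the sink.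
-/

set_option autoImplicit false

namespace Pool.Agent.Results.MP_df6f8e_pr.GeneralKernels

open Pool.Agent.H98.ARW
open scoped NNReal

/-- (1) Lowering the kernel, the sleep rates (site by site) and the numbers of active particles at
the start makes the final number of sleeping particles stochastically smaller. (2) Moving any mass
to the sink, at any sites, is a lowering. (3) The question as posed, for any set `D` of edges of a
multigraph: the edges of `D` are diverted to the sink. -/
theorem result :
    (∀ (V : Type) [Fintype V] [DecidableEq V] (P P' : Ker V) (lam lam' : V → ℝ≥0) (η η' : V → ℕ)
      (k : ℕ), ToSink P → Lowered P P' → (∀ v, lam' v ≤ lam v) → (∀ v, η' v ≤ η v) →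
      probGE P' lam' k (fun v => Site.active (η' v)) ≤
        probGE P lam k (fun v => Site.active (η v))) ∧
    (∀ (V : Type) [Fintype V] [DecidableEq V] (P P' : Ker V), ToSink P →
      (∀ v w, P'.p v (some w) ≤ P.p v (some w)) → Lowered P P') ∧
    (∀ (V E : Type) [Fintype V] [DecidableEq V] [Fintype E] [DecidableEq E] (src : E → V)
      (tgt : E → Option V) (h : ∀ v, ∃ e, src e = v) (D : Finset E) (lam : V → ℝ≥0) (η : V → ℕ)
      (k : ℕ), ToSink (graphKer src tgt h) →
      probGE (graphKer src (fun e => if e ∈ D then none else tgt e) h) lam k
          (fun v => Site.active (η v)) ≤
        probGE (graphKer src tgt h) lam k (fun v => Site.active (η v))) := by
  refine ⟨?_, ?_, ?_⟩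
  · intro V _ _ P P' lam lam' η η' k hP h hlam hη
    exact general hP h hlam hη k
  · intro V _ _ P P' hP h
    exact lowered_of_le hP h
  · intro V E _ _ _ _ src tgt h D lam η k hP
    exact general hP (lowered_of_le hP (graph_le src tgt h D)) (fun _ => le_rfl)
      (fun _ => le_rfl) k

end Pool.Agent.Results.MP_df6f8e_pr.GeneralKernels
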